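import Pool.Agent.Helper65.BQ.St

/-!
Project BQ, module GLU: gluing of two partitions.
-/

set_option autoImplicit false

open Set Topology TopologicalSpace

namespace Pool.Agent.Helper98.BQ

open Pool.Agent.Helper9.SID Pool.Agent.Helper65.BQ

/-- GLU. -/
theorem pGLU (hEXT : StEXT) : StGLU := by
  intro K _ _ Z₁ Z₂ A B L₁ L₂ hZ₁ hZ₂ hZ hA hB hAB h₁ h₂
  letI := metrizableSpaceMetric K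
  obtain ⟨O₁, O₂, hO₁, hO₂, hs₁, hs₂, hO⟩ := normal_separation hZ₁ hZ₂ hZ
  obtain ⟨-, U₁, V₁, hU₁, hV₁, hd₁, hAU₁, hBV₁, hL₁⟩ := h₁
  obtain ⟨-, U₂, V₂, hU₂, hV₂, hd₂, hAU₂, hBV₂, hL₂⟩ := h₂
  rw [Set.disjoint_left] at hO hd₁ hd₂
  have hUV : ∀ x, x ∈ (U₁ ∩ O₁) ∪ (U₂ ∩ O₂) → x ∉ (V₁ ∩ O₁) ∪ (V₂ ∩ O₂) := by
    rintro x (⟨a, b⟩ | ⟨a, b⟩) (⟨c, d⟩ | ⟨c, d⟩)
    · exact hd₁ a c
    · exact hO b d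
    · exact hO d b
    · exact hd₂ a c
  obtain ⟨N, hN, hN2⟩ := hEXT K (Z₁ ∪ Z₂) A B ((U₁ ∩ O₁) ∪ (U₂ ∩ O₂)) ((V₁ ∩ O₁) ∪ (V₂ ∩ O₂))
    (hZ₁.union hZ₂) hA hB hAB ((hU₁.inter hO₁).union (hU₂.inter hO₂))
    ((hV₁.inter hO₁).union (hV₂.inter hO₂))
    (by
      rw [Set.eq_empty_iff_forall_notMem]
      rintro x ⟨⟨_, h1⟩, h2⟩
      exact hUV x h1 h2)
    (by
      rintro x ⟨h1 | h1, h2⟩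
      · exact Or.inl ⟨hAU₁ h2, hs₁ h1⟩
      · exact Or.inr ⟨hAU₂ h2, hs₂ h1⟩)
    (by
      rintro x ⟨h1 | h1, h2⟩
      · exact Or.inl ⟨hBV₁ h2, hs₁ h1⟩
      · exact Or.inr ⟨hBV₂ h2, hs₂ h1⟩)
  refine ⟨N, hN, ?_, ?_⟩
  · rintro x ⟨hx, hz⟩
    obtain ⟨h1, h2⟩ := hN2 x (Or.inl hz) hx
    by_contra hcon
    have : x ∈ U₁ ∪ V₁ := hL₁ ▸ hcon
    rcases this with h | h
    · exact h1 (Or.inl ⟨h, hs₁ hz⟩)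
    · exact h2 (Or.inl ⟨h, hs₁ hz⟩)
  · rintro x ⟨hx, hz⟩
    obtain ⟨h1, h2⟩ := hN2 x (Or.inr hz) hx
    by_contra hcon
    have : x ∈ U₂ ∪ V₂ := hL₂ ▸ hcon
    rcases this with h | h
    · exact h1 (Or.inr ⟨h, hs₂ hz⟩)
    · exact h2 (Or.inr ⟨h, hs₂ hz⟩)

end Pool.Agent.Helper98.BQ
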